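import Pool.Agent.H247.CB.Stm
import Pool.Graph.R_pool_sql_team_seeded_35f281b4.K7.H85.KH.Chain

/-!
# SEP: isolated invariant parts of the chain recurrent set persist
-/

set_option autoImplicit false

open scoped Manifold ContDiff Topology
open Filter Set Metric

universe u

namespace Pool.Agent.H984.CB.SEP

open Pool.Agent.H247.CB
open Pool.Agent.R774.OS (CR isClosed_CR)
open Pool.Agent.K7.H85.KH (cr_fwd cr_bwd)

section basic

variable {X : Type u} [MetricSpace X] [CompactSpace X]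

/-- iterates of uniformly close maps are uniformly close -/
theorem iter_close {F : X → X} (hF : Continuous F) (m : ℕ) : ∀ δ : ℝ, 0 < δ → ∃ ε : ℝ, 0 < ε ∧
    ∀ G : X → X, (∀ x, dist (F x) (G x) < ε) → ∀ x, dist (F^[m] x) (G^[m] x) < δ := by
  induction m with
  | zero =>
    intro δ hδ
    refine ⟨1, one_pos, fun G _ x => ?_⟩
    rw [Function.iterate_zero, Function.iterate_zero, id, dist_self]
    exact hδ
  | succ m ih =>
    intro δ hδ
    obtain ⟨δ', hδ', hu⟩ := Metric.uniformContinuous_iff.1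
      (CompactSpace.uniformContinuous_of_continuous hF) (δ / 2) (half_pos hδ)
    obtain ⟨ε, hε, h⟩ := ih δ' hδ'
    refine ⟨min ε (δ / 2), lt_min hε (half_pos hδ), fun G hG x => ?_⟩
    have h1 : dist (F^[m] x) (G^[m] x) < δ' :=
      h G (fun y => (hG y).trans_le (min_le_left _ _)) x
    have h2 : dist (F (G^[m] x)) (G (G^[m] x)) < δ / 2 := (hG _).trans_le (min_le_right _ _)
    rw [Function.iterate_succ_apply', Function.iterate_succ_apply']
    calc dist (F (F^[m] x)) (G (G^[m] x)) ≤ dist (F (F^[m] x)) (F (G^[m] x)) +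
          dist (F (G^[m] x)) (G (G^[m] x)) := dist_triangle _ _ _
      _ < δ / 2 + δ / 2 := add_lt_add (hu h1) h2
      _ = δ := by ring

/-- the chain recurrent set is invariant under the iterates -/
theorem cr_iter (G : X ≃ₜ X) (m : ℕ) {x : X} (hx : x ∈ CR (G : X → X)) :
    (G : X → X)^[m] x ∈ CR (G : X → X) := by
  induction m with
  | zero => exact hx
  | succ m ih =>
    rw [Function.iterate_succ_apply']
    exact cr_fwd G.continuous ih

theorem cr_iter_symm (G : X ≃ₜ X) (m : ℕ) {x : X} (hx : x ∈ CR (G : X → X)) :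
    (G.symm : X → X)^[m] x ∈ CR (G : X → X) := by
  induction m with
  | zero => exact hx
  | succ m ih =>
    rw [Function.iterate_succ_apply']
    exact cr_bwd G.continuous G.symm.continuous (fun y => G.symm_apply_apply y) ih

/-- an open set around `W` whose closure is mapped into `A` by all nearby maps -/
theorem one_side {F : X → X} (hF : Continuous F) (m : ℕ) {W A : Set X} (hW : IsClosed W)
    (hA : IsOpen A) (hWA : W ⊆ A) (hm : ∀ x ∈ W, F^[m] x ∈ W) :
    ∃ O₁ : Set X, IsOpen O₁ ∧ W ⊆ O₁ ∧ O₁ ⊆ A ∧ ∃ ε : ℝ, 0 < ε ∧ ∀ G : X → X,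
      (∀ x, dist (F x) (G x) < ε) → ∀ x ∈ O₁, G^[m] x ∈ A := by
  have hFm : Continuous F^[m] := hF.iterate m
  obtain ⟨O₁, h1, h2, h3⟩ := normal_exists_closure_subset hW (hA.inter (hA.preimage hFm))
    (fun x hx => ⟨hWA hx, hWA (hm x hx)⟩)
  have hc : IsCompact (F^[m] '' closure O₁) := isClosed_closure.isCompact.image hFm
  obtain ⟨δ, hδ, h4⟩ := hc.exists_thickening_subset_open hA (by
    rintro _ ⟨x, hx, rfl⟩
    exact (h3 hx).2)
  obtain ⟨ε, hε, h5⟩ := iter_close hF m δ hδ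
  refine ⟨O₁, h1, h2, fun x hx => (h3 (subset_closure hx)).1, ε, hε, fun G hG x hx => ?_⟩
  apply h4
  rw [Metric.mem_thickening_iff]
  refine ⟨F^[m] x, ⟨x, subset_closure hx, rfl⟩, ?_⟩
  rw [dist_comm]
  exact h5 G hG x

end basic

/-- **SEP.** -/
theorem main (hU : S_USC.{u}) : S_SEP.{u} := by
  intro X _ _ F m hm W hWF hWc hWc' hW hW' O hO hWO
  obtain ⟨A', B, hA', hB, hWA', hWB, hAB'⟩ := normal_separation hWc hWc' disjoint_sdiff_right
  -- make the first set smaller
  obtain ⟨A, hAdef⟩ : ∃ A, A = A' ∩ O := ⟨_, rfl⟩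
  have hA : IsOpen A := by
    rw [hAdef]
    exact hA'.inter hO
  have hWA : W ⊆ A := by
    rw [hAdef]
    exact fun x hx => ⟨hWA' hx, hWO hx⟩
  have hAO : A ⊆ O := by
    rw [hAdef]
    exact inter_subset_right
  have hAB : Disjoint A B := by
    rw [hAdef]
    exact hAB'.mono_left inter_subset_left
  obtain ⟨O₁, ho1, hWO1, hO1A, ε₁, hε₁, h1⟩ := one_side F.continuous m hWc hA hWA hW
  obtain ⟨O₂, ho2, hWO2, hO2B, ε₂, hε₂, h2⟩ := one_side F.continuous m hWc' hB hWB hW'
  obtain ⟨ε₃, hε₃, h3⟩ := hU X F (O₁ ∪ O₂) (ho1.union ho2) (by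
    intro x hx
    by_cases hxW : x ∈ W
    · exact Or.inl (hWO1 hxW)
    · exact Or.inr (hWO2 ⟨hx, hxW⟩))
  refine ⟨O₁, ho1, hWO1, hO1A.trans hAO, min ε₁ (min ε₂ ε₃), lt_min hε₁ (lt_min hε₂ hε₃),
    fun G hG => ?_⟩
  have hG1 : ∀ x, dist (F x) (G x) < ε₁ := fun x => (hG x).trans_le (min_le_left _ _)
  have hG2 : ∀ x, dist (F x) (G x) < ε₂ :=
    fun x => (hG x).trans_le ((min_le_right _ _).trans (min_le_left _ _))
  have hG3 : ∀ x, dist (F x) (G x) < ε₃ :=
    fun x => (hG x).trans_le ((min_le_right _ _).trans (min_le_right _ _))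
  have hcov : CR (G : X → X) ⊆ O₁ ∪ O₂ := h3 G hG3
  have hdis : ∀ x, x ∈ A → x ∉ B := fun x hx hx' => Set.disjoint_left.1 hAB hx hx'
  have hcl : IsClosed (CR (G : X → X)) := isClosed_CR G.continuous
  -- the iterate preserves the two parts
  have k1 : ∀ x ∈ CR (G : X → X), x ∈ O₁ → (G : X → X)^[m] x ∈ O₁ := by
    intro x hx hx1
    rcases hcov (cr_iter G m hx) with h | h
    · exact h
    · exact absurd (hO2B h) (hdis _ (h1 G hG1 x hx1))
  have k2 : ∀ x ∈ CR (G : X → X), x ∈ O₂ → (G : X → X)^[m] x ∈ O₂ := by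
    intro x hx hx2
    rcases hcov (cr_iter G m hx) with h | h
    · exact absurd (h2 G hG2 x hx2) (hdis _ (hO1A h))
    · exact h
  refine ⟨?_, ?_, ?_⟩
  · have : CR (G : X → X) ∩ O₁ = CR (G : X → X) ∩ O₂ᶜ := by
      ext x
      constructor
      · rintro ⟨hx, hx1⟩
        exact ⟨hx, fun hx2 => hdis x (hO1A hx1) (hO2B hx2)⟩
      · rintro ⟨hx, hx2⟩
        rcases hcov hx with h | h
        · exact ⟨hx, h⟩
        · exact absurd h hx2
    rw [this]
    exact hcl.inter ho2.isClosed_compl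
  · rw [sdiff_eq]
    exact hcl.inter ho1.isClosed_compl
  · rintro x ⟨hx, hx1⟩
    refine ⟨⟨cr_iter G m hx, k1 x hx hx1⟩, ⟨cr_iter_symm G m hx, ?_⟩⟩
    have hy := cr_iter_symm G m hx
    rcases hcov hy with h | h
    · exact h
    · have h4 := k2 _ hy h
      have h5 : (G : X → X)^[m] ((G.symm : X → X)^[m] x) = x :=
        Function.LeftInverse.iterate (fun y => G.apply_symm_apply y) m x
      rw [h5] at h4
      exact absurd (hO2B h4) (hdis _ (hO1A hx1))

end Pool.Agent.H984.CB.SEP
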